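import Pool.Agent.Helper9.RC2.Goals
import Pool.Agent.Helper10.RC.Basic

/-!
# RC2-LEMS (packet of helper9, MP_b55b7c_an)
-/

open scoped ENNReal NNReal InnerProductSpace ComplexOrder
open Filter Topology

attribute [-instance] CStarMatrix.instAlgebra CStarMatrix.instModule CStarMatrix.instSMul
  CStarMatrix.instMulAction CStarMatrix.instDistribMulAction

noncomputable section
namespace Pool.Agent.Helper15.RC2.LEMS

open RC

universe u

theorem t (hC : CpcP.{u}) (hF : FinlP.{u}) (hP : PosP.{u}) (hM : MpP.{u}) : LemSP.{u} := by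
  intro A _ _ _ B _ _ _ G _ _ α j hα hj m ρ θ g hm hρ hθ hg hcomp hmc κ' κ n ν _ _ _ _ _ _ _ _
    e z c he he1 hz heθ hzg hzc ε hε
  have hz' : 0 ≤ mp j z := ((hM A B j hj.1 n n z z).1).1 hz
  have he' : 0 ≤ mp j e := ((hM A B j hj.1 ν ν e e).1).1 he
  have hb : 0 ≤ c.conjTranspose * c := cm_conj_mul_nonneg c
  have hK : z ≤ ‖z‖ • (1 : CStarMatrix n n B) := by
    have h4 := hz.isSelfAdjoint.le_algebraMap_norm_self
    rwa [Algebra.algebraMap_eq_smul_one] at h4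
  have hL : 0 ≤ 2 * ‖z‖ / g ^ 2 := by positivity
  set L := 2 * ‖z‖ / g ^ 2 with hLdef
  obtain ⟨p, y, h, hy, hφ⟩ := hC A n κ (mp j z) (c.conjTranspose * c) hz' hb hzc
    (ε / (2 * (L + 1))) (by positivity)
  have h1 : ∀ i, 0 ≤ h i ∧ mp j z ≤ (c * y i).conjTranspose * (c * y i) + h i := by
    intro i
    refine ⟨(hy i).1, (hy i).2.trans (le_of_eq ?_)⟩
    rw [cm_conj_mul c]
    simp only [cm_assoc]
  obtain ⟨Y, F, v, _, hv⟩ := hF A B G α j hα hj m ρ θ ‖z‖ g hm hρ hθ (norm_nonneg z) hg hcomp hmc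
    κ' κ n ν e z c he he1 hz hK heθ hzg p y h h1 ε hε
  have hT : IsSelfAdjoint (mp j e - (c * Y).conjTranspose * (c * Y) -
      ε • (1 : CStarMatrix ν ν A)) := by
    refine IsSelfAdjoint.sub (IsSelfAdjoint.sub he'.isSelfAdjoint
      (cm_conj_mul_nonneg _).isSelfAdjoint) ?_
    exact IsSelfAdjoint.smul (IsSelfAdjoint.all ε) (IsSelfAdjoint.one (CStarMatrix ν ν A))
  obtain ⟨k, hk, hTk, hkφ⟩ := hP A ν n _ hT
  refine ⟨Y, k, hk, ?_, fun φ => ?_⟩
  · rw [sub_sub, sub_le_iff_le_add] at hTk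
    refine hTk.trans (le_of_eq ?_)
    abel
  · obtain ⟨i, hi⟩ := hφ φ
    have h2 : mp j e - (c * Y).conjTranspose * (c * Y) - ε • (1 : CStarMatrix ν ν A) ≤
        (v i).conjTranspose * h i * v i := by
      rw [sub_sub, sub_le_iff_le_add]
      refine (hv i).2.trans (le_of_eq ?_)
      abel
    have h3 := hkφ φ (v i) (h i) L hL (hy i).1 (hv i).1 h2
    refine h3.trans ?_
    have h4 : L * tm φ (h i) ≤ L * (ε / (2 * (L + 1))) := mul_le_mul_of_nonneg_left hi.le hL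
    refine h4.trans ?_
    rw [mul_div_assoc', div_le_iff₀ (by positivity)]
    nlinarith

end Pool.Agent.Helper15.RC2.LEMS
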